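import Mathlib

/-!
No left-right pair in `SL_2(N_0)` has a rootless component in its forest.
-/

namespace Pool.Agent.Results.MP_b00f03_nt.NoRootlessTree

/-- The open first quadrant of the field `K`. -/
def D0 (K : Subfield ℂ) : Set ℂ := {z | z ∈ K ∧ 0 < z.re ∧ 0 < z.im}

/-- Two by two matrices of nonnegative integers with determinant one. -/
def SL2N : Set (Matrix (Fin 2) (Fin 2) ℕ) := {M | M 0 0 * M 1 1 = M 0 1 * M 1 0 + 1}

/-- The action by linear fractional maps. -/
noncomputable def act (M : Matrix (Fin 2) (Fin 2) ℕ) (z : ℂ) : ℂ :=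
  ((M 0 0 : ℂ) * z + (M 0 1 : ℂ)) / ((M 1 0 : ℂ) * z + (M 1 1 : ℂ))

/-- Left-right pairs: non-identity matrices in `SL_2(N_0)` with disjoint images of `D0 K`. -/
def IsLeftRightPair (K : Subfield ℂ) (L R : Matrix (Fin 2) (Fin 2) ℕ) : Prop :=
  L ∈ SL2N ∧ R ∈ SL2N ∧ L ≠ 1 ∧ R ≠ 1 ∧ (act L '' D0 K) ∩ (act R '' D0 K) = ∅

/-- The edge relation of the forest: `z → L(z)` and `z → R(z)`. -/
def Edge (K : Subfield ℂ) (L R : Matrix (Fin 2) (Fin 2) ℕ) (z w : D0 K) : Prop :=
  (w : ℂ) = act L z ∨ (w : ℂ) = act R z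

/-- A vertex without parent. -/
def Orphan (K : Subfield ℂ) (L R : Matrix (Fin 2) (Fin 2) ℕ) (w : D0 K) : Prop :=
  ∀ z : D0 K, ¬ Edge K L R z w

/-- The (undirected) connected component of some vertex contains no orphan. -/
def HasRootlessComponent (K : Subfield ℂ) (L R : Matrix (Fin 2) (Fin 2) ℕ) : Prop :=
  ∃ z : D0 K, ∀ w : D0 K, Relation.EqvGen (Edge K L R) z w → ¬ Orphan K L R w

/-- `Anc n z w`: `w` is the `n`-th iterated parent of `z`. -/
def Anc (K : Subfield ℂ) (L R : Matrix (Fin 2) (Fin 2) ℕ) : ℕ → D0 K → D0 K → Prop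
  | 0, z, w => w = z
  | n + 1, z, w => ∃ u, Anc K L R n z u ∧ Edge K L R w u

/-- Entries of elements of `SL_2(N_0)` in a plain form. -/
structure Data (n : ℕ) (z w : ℂ) : Prop where
  ex : ∃ a b c d : ℕ, a * d = b * c + 1 ∧ n + 2 ≤ a + b + c + d ∧
    z * ((c : ℂ) * w + d) = (a : ℂ) * w + b

theorem den_ne {c d : ℕ} {w : ℂ} (hd : 1 ≤ d) (hw : 0 < w.re) : (c : ℂ) * w + d ≠ 0 := by
  intro h
  have h1 : ((c : ℂ) * w + d).re = 0 := by rw [h]; simp
  simp only [Complex.add_re, Complex.mul_re, Complex.natCast_re, Complex.natCast_im, zero_mul,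
    sub_zero] at h1
  have h2 : (1 : ℝ) ≤ d := by exact_mod_cast hd
  have h3 : (0 : ℝ) ≤ c := by positivity
  nlinarith [mul_nonneg h3 hw.le]

theorem step {n : ℕ} {z u w : ℂ} (h : Data n z u) {M : Matrix (Fin 2) (Fin 2) ℕ}
    (hM : M ∈ SL2N) (hM1 : M ≠ 1) (hw : 0 < w.re) (hu : u = act M w) : Data (n + 1) z w := by
  obtain ⟨a, b, c, d, hdet, hsum, hz⟩ := h.ex
  have hM' : M 0 0 * M 1 1 = M 0 1 * M 1 0 + 1 := hM
  set p := M 0 0 with hp
  set q := M 0 1 with hq
  set r := M 1 0 with hr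
  set s := M 1 1 with hs
  have hs1 : 1 ≤ s := by
    rcases Nat.eq_zero_or_pos s with h | h
    · rw [h] at hM'; omega
    · exact h
  have hp1 : 1 ≤ p := by
    rcases Nat.eq_zero_or_pos p with h | h
    · rw [h] at hM'; omega
    · exact h
  have hqr : 1 ≤ q + r := by
    by_contra hcon
    have hq0 : q = 0 := by omega
    have hr0 : r = 0 := by omega
    rw [hq0, hr0] at hM'
    have hps : p * s = 1 := by simpa using hM'
    have hp1' : p = 1 := Nat.eq_one_of_mul_eq_one_right hps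
    have hs1' : s = 1 := Nat.eq_one_of_mul_eq_one_left hps
    apply hM1
    ext i j
    fin_cases i <;> fin_cases j
    · simpa using hp ▸ hp1'
    · simpa using hq ▸ hq0
    · simpa using hr ▸ hr0
    · simpa using hs ▸ hs1'
  have ha1 : 1 ≤ a := by
    rcases Nat.eq_zero_or_pos a with h | h
    · rw [h] at hdet; omega
    · exact h
  have hd1 : 1 ≤ d := by
    rcases Nat.eq_zero_or_pos d with h | h
    · rw [h] at hdet; omega
    · exact h
  refine ⟨⟨a * p + b * r, a * q + b * s, c * p + d * r, c * q + d * s, ?_, ?_, ?_⟩⟩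
  · zify at hdet hM' ⊢
    linear_combination (↑p * ↑s - ↑q * ↑r : ℤ) * hdet + hM'
  · nlinarith [Nat.mul_le_mul_left a hp1, Nat.mul_le_mul_left c hp1, Nat.mul_le_mul_left b hs1,
      Nat.mul_le_mul_left d hs1, Nat.mul_le_mul_right q ha1, Nat.mul_le_mul_right r hd1,
      Nat.zero_le (c * q), Nat.zero_le (b * r)]
  · have hden := den_ne (c := r) hs1 hw
    have hu' : u * ((r : ℂ) * w + s) = (p : ℂ) * w + q := by
      rw [hu, act, div_mul_cancel₀]
      exact hden
    push_cast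
    have h1 : z * (((c : ℂ) * p + d * r) * w + (c * q + d * s)) =
        z * ((c : ℂ) * (p * w + q) + d * (r * w + s)) := by ring
    rw [h1, ← hu']
    have h2 : z * ((c : ℂ) * (u * ((r : ℂ) * w + s)) + d * (r * w + s)) =
        (z * ((c : ℂ) * u + d)) * (r * w + s) := by ring
    rw [h2, hz]
    have h3 : ((a : ℂ) * u + b) * (r * w + s) = a * (u * (r * w + s)) + b * (r * w + s) := by ring
    rw [h3, hu']
    ring

/-- The key bound. -/
theorem bound {n : ℕ} {z w : ℂ} (h : Data n z w) (hz : 0 < z.im) (hwr : 0 < w.re)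
    (hwi : 0 < w.im) : (n : ℝ) ≤ (Complex.normSq z + 1) / (2 * z.im) := by
  obtain ⟨a, b, c, d, hdet, hsum, heq⟩ := h.ex
  have ha1 : 1 ≤ a := by
    rcases Nat.eq_zero_or_pos a with h | h
    · rw [h] at hdet; omega
    · exact h
  have hd1 : 1 ≤ d := by
    rcases Nat.eq_zero_or_pos d with h | h
    · rw [h] at hdet; omega
    · exact h
  -- real and imaginary parts
  set x := z.re
  set y := z.im
  set X := w.re
  set Y := w.im
  have e1 : x * (c * X + d) - y * (c * Y) = a * X + b := by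
    have := congrArg Complex.re heq
    simpa using this
  have e2 : x * (c * Y) + y * (c * X + d) = a * Y := by
    have := congrArg Complex.im heq
    simpa using this
  have hdetR : (a : ℝ) * d = b * c + 1 := by exact_mod_cast hdet
  have ha : (1 : ℝ) ≤ a := by exact_mod_cast ha1
  have hd : (1 : ℝ) ≤ d := by exact_mod_cast hd1
  have hb : (0 : ℝ) ≤ b := by positivity
  have hc : (0 : ℝ) ≤ c := by positivity
  set N : ℝ := (c * X + d) ^ 2 + (c * Y) ^ 2 with hN
  have hcX : 0 ≤ c * X := mul_nonneg hc hwr.le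
  have hNpos : 0 < N := by
    have : 0 < (c * X + d : ℝ) := by linarith
    positivity
  have hyN : y * N = Y := by
    have h1 : y * N = (c * X + d) * (x * (c * Y) + y * (c * X + d)) -
        (c * Y) * (x * (c * X + d) - y * (c * Y)) := by rw [hN]; ring
    rw [h1, e1, e2]
    linear_combination Y * hdetR
  have hzN : (x ^ 2 + y ^ 2) * N = (a * X + b) ^ 2 + (a * Y) ^ 2 := by
    rw [← e1, ← e2, hN]; ring
  -- the two product bounds
  have k1 : 2 * (c * d) * y ≤ 1 := by
    have h1 : 2 * (c * d) * Y ≤ N := by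
      rw [hN]
      nlinarith [sq_nonneg (c * X + d - c * Y), mul_nonneg hc hcX, mul_nonneg hc hwi.le,
        mul_nonneg hcX (mul_nonneg hc hwi.le)]
    have h2 : 2 * (c * d) * (y * N) ≤ N := by rw [hyN]; exact h1
    have h3 : (2 * (c * d) * y) * N ≤ 1 * N := by linarith
    exact le_of_mul_le_mul_right h3 hNpos
  have k2 : 2 * (a * b) * y ≤ x ^ 2 + y ^ 2 := by
    have h1 : 2 * (a * b) * Y ≤ (a * X + b) ^ 2 + (a * Y) ^ 2 := by
      nlinarith [sq_nonneg (a * X + b - a * Y), mul_nonneg (by linarith : (0 : ℝ) ≤ a) hwr.le,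
        mul_nonneg (by linarith : (0 : ℝ) ≤ a) hwi.le,
        mul_nonneg (mul_nonneg (by linarith : (0 : ℝ) ≤ a) hwr.le)
          (mul_nonneg (by linarith : (0 : ℝ) ≤ a) hwi.le)]
    rw [← hzN, ← hyN] at h1
    have h3 : (2 * (a * b) * y) * N ≤ (x ^ 2 + y ^ 2) * N := by linarith
    exact le_of_mul_le_mul_right h3 hNpos
  -- entries against products
  have m1 : a + b ≤ a * b + 1 := by
    rcases Nat.eq_zero_or_pos b with h | h
    · subst h
      have : a * d = 1 := by simpa using hdet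
      have : a = 1 := Nat.eq_one_of_mul_eq_one_right this
      omega
    · nlinarith
  have m2 : c + d ≤ c * d + 1 := by
    rcases Nat.eq_zero_or_pos c with h | h
    · subst h
      have : a * d = 1 := by simpa using hdet
      have : d = 1 := Nat.eq_one_of_mul_eq_one_left this
      omega
    · nlinarith
  have m3 : n ≤ a * b + c * d := by omega
  have m4 : (n : ℝ) ≤ a * b + c * d := by exact_mod_cast m3
  rw [le_div_iff₀ (by positivity), Complex.normSq_apply]
  nlinarith

theorem data_of_anc {K : Subfield ℂ} {L R : Matrix (Fin 2) (Fin 2) ℕ}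
    (hL : L ∈ SL2N) (hR : R ∈ SL2N) (hL1 : L ≠ 1) (hR1 : R ≠ 1) :
    ∀ (n : ℕ) (z w : D0 K), Anc K L R n z w → Data n z w := by
  intro n
  induction n with
  | zero =>
    rintro z w rfl
    exact ⟨⟨1, 0, 0, 1, by norm_num, by norm_num, by push_cast; ring⟩⟩
  | succ n ih =>
    rintro z w ⟨u, hu, hE | hE⟩
    · exact step (ih z u hu) hL hL1 w.2.2.1 hE
    · exact step (ih z u hu) hR hR1 w.2.2.1 hE

/-- For every non-real subfield `K`, the set of left-right pairs whose forest has a rootless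
component is empty. Moreover a vertex `z` has at most `(|z|^2 + 1) / (2 Im z)` iterated
parents. -/
theorem result (K : Subfield ℂ) (_hK : ∃ z ∈ K, z.im ≠ 0) :
    {p : Matrix (Fin 2) (Fin 2) ℕ × Matrix (Fin 2) (Fin 2) ℕ |
      IsLeftRightPair K p.1 p.2 ∧ HasRootlessComponent K p.1 p.2} = ∅ ∧
    ∀ L R : Matrix (Fin 2) (Fin 2) ℕ, IsLeftRightPair K L R →
      ∀ (n : ℕ) (z w : D0 K), Anc K L R n z w →
        (n : ℝ) ≤ (Complex.normSq (z : ℂ) + 1) / (2 * (z : ℂ).im) := by
  have h2 : ∀ L R : Matrix (Fin 2) (Fin 2) ℕ, IsLeftRightPair K L R →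
      ∀ (n : ℕ) (z w : D0 K), Anc K L R n z w →
        (n : ℝ) ≤ (Complex.normSq (z : ℂ) + 1) / (2 * (z : ℂ).im) := by
    intro L R hLR n z w h
    exact bound (data_of_anc hLR.1 hLR.2.1 hLR.2.2.1 hLR.2.2.2.1 n z w h) z.2.2.2
      w.2.2.1 w.2.2.2
  refine ⟨?_, h2⟩
  rw [Set.eq_empty_iff_forall_notMem]
  rintro ⟨L, R⟩ ⟨hLR, z, hz⟩
  have hall : ∀ n : ℕ, ∃ w : D0 K, Anc K L R n z w ∧ Relation.EqvGen (Edge K L R) z w := by
    intro n
    induction n with
    | zero => exact ⟨z, rfl, Relation.EqvGen.refl z⟩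
    | succ n ih =>
      obtain ⟨u, hu, hzu⟩ := ih
      have := hz u hzu
      unfold Orphan at this
      push Not at this
      obtain ⟨w, hw⟩ := this
      exact ⟨w, ⟨u, hu, hw⟩, hzu.trans _ _ _ ((Relation.EqvGen.rel _ _ hw).symm _ _)⟩
  obtain ⟨n, hn⟩ := exists_nat_gt ((Complex.normSq (z : ℂ) + 1) / (2 * (z : ℂ).im))
  obtain ⟨w, hw, -⟩ := hall n
  exact absurd (h2 L R hLR n z w hw) (not_le.2 hn)

end Pool.Agent.Results.MP_b00f03_nt.NoRootlessTree
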